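import Pool.Agent.Q18.KZ.S3

/-!
# KZ-DM: the mass of the hosts (project KZ of helper18)
-/

set_option autoImplicit false

namespace Pool.Agent.Q184.KZ

open Finset Filter Topology
open scoped Classical
open Pool.Agent.Q18.KZ
open Pool.Agent.W76.MO (hh nc cell lp Rough)

theorem TT_nonneg (E : KEnv) (i m : ℕ) : 0 ≤ E.TT i m := by
  unfold KEnv.TT ww
  positivity

/-- the geometric series -/
theorem geom_tail (j M : ℕ) : ∑ i ∈ Ico j M, (2 : ℝ) ^ (-((i : ℝ) / 8000)) ≤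
    (2 : ℝ) ^ (-((j : ℝ) / 8000)) * (1 - (2 : ℝ) ^ (-(1 / 8000 : ℝ)))⁻¹ := by
  set r : ℝ := (2 : ℝ) ^ (-(1 / 8000 : ℝ)) with hr
  have hr0 : 0 < r := by positivity
  have hr1 : r < 1 := by
    rw [hr]
    exact Real.rpow_lt_one_of_one_lt_of_neg (by norm_num) (by norm_num)
  have hpow : ∀ i : ℕ, (2 : ℝ) ^ (-((i : ℝ) / 8000)) = r ^ i := by
    intro i
    rw [hr, ← Real.rpow_natCast, ← Real.rpow_mul (by norm_num)]
    congr 1
    ring
  rw [Finset.sum_congr rfl (fun i _ => hpow i), hpow j]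
  rw [Finset.sum_Ico_eq_sum_range]
  have h1 : ∀ k ∈ range (M - j), r ^ (j + k) = r ^ j * r ^ k := fun k _ => pow_add r j k
  rw [Finset.sum_congr rfl h1, ← Finset.mul_sum]
  have h2 : ∑ k ∈ range (M - j), r ^ k ≤ (1 - r)⁻¹ := by
    rw [← tsum_geometric_of_lt_one hr0.le hr1]
    exact (summable_geometric_of_lt_one hr0.le hr1).sum_le_tsum _ (fun i _ => by positivity)
  exact mul_le_mul_of_nonneg_left h2 (by positivity)

theorem t_DM (hDT : S_DT) (_hFF : S_FF) : S_DM := by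
  intro E
  obtain ⟨C, hC, hDT⟩ := hDT E
  -- the threshold
  set D : ℝ := 2 * C * (2 : ℝ) ^ (1 / 8000 : ℝ) * (1 - (2 : ℝ) ^ (-(1 / 8000 : ℝ)))⁻¹ with hD
  have hlim : Tendsto (fun j : ℕ => D * (2 : ℝ) ^ (-((j : ℝ) * (3 / 40000)))) atTop (𝓝 (D * 0)) := by
    apply Tendsto.const_mul
    have h1 : ∀ j : ℕ, (2 : ℝ) ^ (-((j : ℝ) * (3 / 40000))) = ((2 : ℝ) ^ (-(3 / 40000 : ℝ))) ^ j := by
      intro j
      rw [← Real.rpow_natCast, ← Real.rpow_mul (by norm_num)]
      congr 1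
      ring
    simp_rw [h1]
    exact tendsto_pow_atTop_nhds_zero_of_lt_one (by positivity)
      (Real.rpow_lt_one_of_one_lt_of_neg (by norm_num) (by norm_num))
  rw [mul_zero] at hlim
  have hev : ∀ᶠ j : ℕ in atTop, D * (2 : ℝ) ^ (-((j : ℝ) * (3 / 40000))) < 1 :=
    hlim.eventually (gt_mem_nhds one_pos)
  obtain ⟨J₁, hJ₁⟩ := eventually_atTop.mp hev
  refine ⟨1, max E.i₁ J₁, one_pos, ?_⟩
  intro η j V _ _ hj hEv N
  have hj1 : E.i₁ ≤ j := le_trans (le_max_left _ _) hj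
  have hj2 := hJ₁ j (le_trans (le_max_right _ _) hj)
  have hT := hDT j hj1 V (fun p hp => (hEv.sub p hp).1) hEv.o1 hEv.o2
  -- bound for one prime
  set M : ℕ := 4 * Nat.log 2 N + 4 with hM
  have hHi : ∀ i : ℕ, j ≤ i → ∀ p : ℕ, E.H1 V i p + E.H2 V i p ≤
      2 * C * ∑ u ∈ (E.Fam i).filter (fun u => Vn V u.1 ∧ u.2 = p), E.TT i u.1 := by
    intro i hi p
    obtain ⟨h1, h2, h3, -, -⟩ := hT i hi
    have key : ∀ (F : Finset (ℕ × ℕ)) (g : ℕ × ℕ → ℝ), F ⊆ E.Fam i →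
        (∀ u, g u ≤ (if Vn V u.1 then C * E.TT i u.1 else 0)) →
        ∑ u ∈ F.filter (fun u => u.2 = p), g u ≤
          C * ∑ u ∈ (E.Fam i).filter (fun u => Vn V u.1 ∧ u.2 = p), E.TT i u.1 := by
      intro F g hF hg
      calc ∑ u ∈ F.filter (fun u => u.2 = p), g u
          ≤ ∑ u ∈ F.filter (fun u => u.2 = p), (if Vn V u.1 then C * E.TT i u.1 else 0) :=
            Finset.sum_le_sum fun u _ => hg u
        _ ≤ ∑ u ∈ (E.Fam i).filter (fun u => u.2 = p),
            (if Vn V u.1 then C * E.TT i u.1 else 0) := by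
            apply Finset.sum_le_sum_of_subset_of_nonneg
            · exact Finset.filter_subset_filter _ hF
            · intro u _ _
              split_ifs
              · exact mul_nonneg (by linarith) (TT_nonneg E i _)
              · exact le_rfl
        _ = C * ∑ u ∈ (E.Fam i).filter (fun u => Vn V u.1 ∧ u.2 = p), E.TT i u.1 := by
            rw [← Finset.sum_filter, Finset.filter_filter, Finset.mul_sum]
            apply Finset.sum_congr _ (fun _ _ => rfl)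
            apply Finset.filter_congr
            intro u _
            exact and_comm
    have k1 := key (E.Fam1 i) (E.g1 V i) Finset.subset_union_left (fun u => (h3 u).2.1)
    have k2 := key (E.Fam2 i) (E.g2 V i) Finset.subset_union_right (fun u => (h3 u).2.2.2)
    have k3 := (h1 p).2
    have k4 := (h2 p).2
    linarith
  have hmem : ∀ i : ℕ, ∀ u ∈ E.Fam i, u.2 ≤ 2 ^ (i + 1) := by
    intro i u hu
    unfold KEnv.Fam KEnv.Fam1 KEnv.Fam2 at hu
    simp only [Finset.mem_union, Finset.mem_filter, Finset.mem_product, Finset.mem_range] at hu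
    rcases hu with hu | hu
    · omega
    · omega
  have hpow : ∀ i p : ℕ, p ≤ 2 ^ (i + 1) → (p : ℝ) ^ (1 / 8000 : ℝ) ≤
      (2 : ℝ) ^ (1 / 8000 : ℝ) * (2 : ℝ) ^ ((i : ℝ) / 8000) := by
    intro i p hp
    have h1 : (p : ℝ) ≤ (2 : ℝ) ^ (((i : ℝ) + 1)) := by
      have h2 : (p : ℝ) ≤ ((2 ^ (i + 1) : ℕ) : ℝ) := by exact_mod_cast hp
      refine h2.trans (le_of_eq ?_)
      push_cast
      rw [← Real.rpow_natCast]
      push_cast
      rfl
    calc (p : ℝ) ^ (1 / 8000 : ℝ) ≤ ((2 : ℝ) ^ ((i : ℝ) + 1)) ^ (1 / 8000 : ℝ) :=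
          Real.rpow_le_rpow (by positivity) h1 (by norm_num)
      _ = (2 : ℝ) ^ (1 / 8000 : ℝ) * (2 : ℝ) ^ ((i : ℝ) / 8000) := by
          rw [← Real.rpow_mul (by norm_num), ← Real.rpow_add (by norm_num)]
          congr 1
          ring
  -- the sum over the scales
  have hgh : ∀ p ∈ (range N).filter Nat.Prime, E.gh V j p * (p : ℝ) ^ (1 / 8000 : ℝ) ≤
      ∑ i ∈ Ico j M, ∑ u ∈ (E.Fam i).filter (fun u => Vn V u.1 ∧ u.2 = p),
        2 * C * (2 : ℝ) ^ (1 / 8000 : ℝ) * ((2 : ℝ) ^ ((i : ℝ) / 8000) * E.TT i u.1) := by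
    intro p hp
    rw [Finset.mem_filter, Finset.mem_range] at hp
    have hsub : KEnv.hs j p ⊆ Ico j M := by
      intro i hi
      unfold KEnv.hs at hi
      rw [Finset.mem_filter, Finset.mem_range] at hi
      rw [Finset.mem_Ico]
      refine ⟨hi.2, lt_of_lt_of_le hi.1 ?_⟩
      have : Nat.log 2 p ≤ Nat.log 2 N := Nat.log_mono_right hp.1.le
      omega
    unfold KEnv.gh
    rw [Finset.sum_mul]
    calc ∑ i ∈ KEnv.hs j p, (E.H1 V i p + E.H2 V i p) * (p : ℝ) ^ (1 / 8000 : ℝ)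
        ≤ ∑ i ∈ KEnv.hs j p, ∑ u ∈ (E.Fam i).filter (fun u => Vn V u.1 ∧ u.2 = p),
          2 * C * (2 : ℝ) ^ (1 / 8000 : ℝ) * ((2 : ℝ) ^ ((i : ℝ) / 8000) * E.TT i u.1) := by
          apply Finset.sum_le_sum
          intro i hi
          have hji : j ≤ i := (Finset.mem_Ico.mp (hsub hi)).1
          have h5 := hHi i hji p
          calc (E.H1 V i p + E.H2 V i p) * (p : ℝ) ^ (1 / 8000 : ℝ)
              ≤ (2 * C * ∑ u ∈ (E.Fam i).filter (fun u => Vn V u.1 ∧ u.2 = p), E.TT i u.1) *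
                (p : ℝ) ^ (1 / 8000 : ℝ) := mul_le_mul_of_nonneg_right h5 (by positivity)
            _ = ∑ u ∈ (E.Fam i).filter (fun u => Vn V u.1 ∧ u.2 = p),
                2 * C * (E.TT i u.1 * (p : ℝ) ^ (1 / 8000 : ℝ)) := by
                rw [Finset.mul_sum, Finset.sum_mul]
                exact Finset.sum_congr rfl fun u _ => by ring
            _ ≤ _ := by
                apply Finset.sum_le_sum
                intro u hu
                rw [Finset.mem_filter] at hu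
                have h6 : p ≤ 2 ^ (i + 1) := by
                  rw [← hu.2.2]
                  exact hmem i u hu.1
                have h7 := mul_le_mul_of_nonneg_left (hpow i p h6) (TT_nonneg E i u.1)
                have h8 := mul_le_mul_of_nonneg_left h7 (by linarith : (0 : ℝ) ≤ 2 * C)
                refine h8.trans (le_of_eq ?_)
                ring
      _ ≤ _ := by
          apply Finset.sum_le_sum_of_subset_of_nonneg hsub
          intro i _ _
          apply Finset.sum_nonneg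
          intro u _
          have := TT_nonneg E i u.1
          have h9 : (0 : ℝ) ≤ 2 * C := by linarith
          positivity
  -- the sum over the primes
  have hsw : ∀ i ∈ Ico j M, ∑ p ∈ (range N).filter Nat.Prime,
      ∑ u ∈ (E.Fam i).filter (fun u => Vn V u.1 ∧ u.2 = p),
        2 * C * (2 : ℝ) ^ (1 / 8000 : ℝ) * ((2 : ℝ) ^ ((i : ℝ) / 8000) * E.TT i u.1) ≤
      2 * C * (2 : ℝ) ^ (1 / 8000 : ℝ) * (2 : ℝ) ^ (-((i : ℝ) / 8000)) := by
    intro i hi
    have hji : j ≤ i := (Finset.mem_Ico.mp hi).1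
    have hc : (0 : ℝ) ≤ 2 * C * (2 : ℝ) ^ (1 / 8000 : ℝ) * (2 : ℝ) ^ ((i : ℝ) / 8000) := by
      have h9 : (0 : ℝ) ≤ 2 * C := by linarith
      positivity
    have h1 : ∑ p ∈ (range N).filter Nat.Prime,
        ∑ u ∈ (E.Fam i).filter (fun u => Vn V u.1 ∧ u.2 = p), E.TT i u.1 ≤
        ∑ u ∈ (E.Fam i).filter (fun u => Vn V u.1), E.TT i u.1 := by
      have h2 : ∀ p, (E.Fam i).filter (fun u => Vn V u.1 ∧ u.2 = p) =
          ((E.Fam i).filter (fun u => Vn V u.1)).filter (fun u => u.2 = p) := by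
        intro p
        rw [Finset.filter_filter]
      rw [Finset.sum_congr rfl (fun p _ => by rw [h2 p])]
      exact Finset.sum_fiberwise_le_sum_of_sum_fiber_nonneg
        (fun p _ => Finset.sum_nonneg fun u _ => TT_nonneg E i u.1)
    calc ∑ p ∈ (range N).filter Nat.Prime,
          ∑ u ∈ (E.Fam i).filter (fun u => Vn V u.1 ∧ u.2 = p),
            2 * C * (2 : ℝ) ^ (1 / 8000 : ℝ) * ((2 : ℝ) ^ ((i : ℝ) / 8000) * E.TT i u.1)
        = 2 * C * (2 : ℝ) ^ (1 / 8000 : ℝ) * (2 : ℝ) ^ ((i : ℝ) / 8000) *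
          ∑ p ∈ (range N).filter Nat.Prime,
            ∑ u ∈ (E.Fam i).filter (fun u => Vn V u.1 ∧ u.2 = p), E.TT i u.1 := by
          rw [Finset.mul_sum]
          apply Finset.sum_congr rfl
          intro p _
          rw [Finset.mul_sum]
          exact Finset.sum_congr rfl fun u _ => by ring
      _ ≤ 2 * C * (2 : ℝ) ^ (1 / 8000 : ℝ) * (2 : ℝ) ^ ((i : ℝ) / 8000) *
          (2 : ℝ) ^ (-((i : ℝ) / 4000)) :=
          mul_le_mul_of_nonneg_left (h1.trans (hEv.m i hji)) hc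
      _ = 2 * C * (2 : ℝ) ^ (1 / 8000 : ℝ) * (2 : ℝ) ^ (-((i : ℝ) / 8000)) := by
          rw [mul_assoc, ← Real.rpow_add (by norm_num)]
          congr 2
          ring
  calc ∑ p ∈ (range N).filter Nat.Prime, E.gh V j p * (p : ℝ) ^ (1 / 8000 : ℝ)
      ≤ ∑ p ∈ (range N).filter Nat.Prime, ∑ i ∈ Ico j M,
        ∑ u ∈ (E.Fam i).filter (fun u => Vn V u.1 ∧ u.2 = p),
          2 * C * (2 : ℝ) ^ (1 / 8000 : ℝ) * ((2 : ℝ) ^ ((i : ℝ) / 8000) * E.TT i u.1) :=
        Finset.sum_le_sum hgh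
    _ = ∑ i ∈ Ico j M, ∑ p ∈ (range N).filter Nat.Prime,
        ∑ u ∈ (E.Fam i).filter (fun u => Vn V u.1 ∧ u.2 = p),
          2 * C * (2 : ℝ) ^ (1 / 8000 : ℝ) * ((2 : ℝ) ^ ((i : ℝ) / 8000) * E.TT i u.1) :=
        Finset.sum_comm
    _ ≤ ∑ i ∈ Ico j M, 2 * C * (2 : ℝ) ^ (1 / 8000 : ℝ) * (2 : ℝ) ^ (-((i : ℝ) / 8000)) :=
        Finset.sum_le_sum hsw
    _ = 2 * C * (2 : ℝ) ^ (1 / 8000 : ℝ) * ∑ i ∈ Ico j M, (2 : ℝ) ^ (-((i : ℝ) / 8000)) := by
        rw [Finset.mul_sum]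
    _ ≤ 2 * C * (2 : ℝ) ^ (1 / 8000 : ℝ) *
        ((2 : ℝ) ^ (-((j : ℝ) / 8000)) * (1 - (2 : ℝ) ^ (-(1 / 8000 : ℝ)))⁻¹) := by
        have h9 : (0 : ℝ) ≤ 2 * C := by linarith
        exact mul_le_mul_of_nonneg_left (geom_tail j M) (by positivity)
    _ = D * (2 : ℝ) ^ (-((j : ℝ) * (3 / 40000))) * (2 : ℝ) ^ (-((j : ℝ) / 20000)) := by
        rw [hD]
        have : (2 : ℝ) ^ (-((j : ℝ) / 8000)) =
            (2 : ℝ) ^ (-((j : ℝ) * (3 / 40000))) * (2 : ℝ) ^ (-((j : ℝ) / 20000)) := by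
          rw [← Real.rpow_add (by norm_num)]
          congr 1
          ring
        rw [this]
        ring
    _ ≤ 1 * (2 : ℝ) ^ (-((j : ℝ) / 20000)) :=
        mul_le_mul_of_nonneg_right hj2.le (by positivity)
    _ = (2 : ℝ) ^ (-((j : ℝ) / 20000)) := one_mul _

end Pool.Agent.Q184.KZ
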